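import Pool.Agent.Helper28.MT.Goals2
import Pool.Agent.Helper25.MT.NUM

/-!
Project MT2 (MP_bb782b_co), packet MT2-NUM2: real numbers.
-/

set_option autoImplicit false

namespace Pool.Agent.Helper59.MT2

open Pool.Agent.Helper28.MT Pool.Agent.Helper28.MT2

theorem mt2_num2 : G_NUM2 := by
  refine ⟨1 / 2 ^ 41, by positivity, fun k hk => ?_⟩
  set h := Nat.clog 2 k with hh
  have hkh : k ≤ 2 ^ h := Nat.le_pow_clog (by norm_num) k
  have hc := Pool.Agent.Helper25.MT.clog_le hk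
  rw [← hh] at hc
  have hlog : 0 < Real.log k := Real.log_pos (by exact_mod_cast (by omega : 1 < k))
  have hh1 : 1 ≤ h := Nat.clog_pos (by norm_num) hk
  by_cases hA : k < 2 * (2 ^ 38 * h)
  · refine ⟨h, 0, hkh, ?_, Or.inl rfl⟩
    rw [div_le_iff₀ hlog]
    have h1 : (k : ℝ) ≤ 2 * (2 ^ 38 * (h : ℝ)) := by exact_mod_cast hA.le
    push_cast
    nlinarith
  · push Not at hA
    have hApos : 0 < 2 ^ 38 * h := by positivity
    set A := 2 ^ 38 * h with hAdef
    set s := Nat.log 2 (k / A) with hs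
    have h2 : 2 ≤ k / A := (Nat.le_div_iff_mul_le hApos).2 hA
    have h3 : 2 ^ s ≤ k / A := Nat.pow_log_le_self 2 (by omega)
    have h4 : k / A < 2 ^ (s + 1) := Nat.lt_pow_succ_log_self (by norm_num) _
    have h5 : 2 ^ s * A ≤ k := (Nat.le_div_iff_mul_le hApos).1 h3
    have h6 : k < 2 ^ (s + 1) * A := (Nat.div_lt_iff_lt_mul hApos).1 h4
    have hs1 : 1 ≤ s := Nat.log_pos (by norm_num) h2
    have hsh : s ≤ h := by
      have h7 : 2 ^ s ≤ 2 ^ h := by
        calc 2 ^ s = 2 ^ s * 1 := (mul_one _).symm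
          _ ≤ 2 ^ s * A := Nat.mul_le_mul_left _ hApos
          _ ≤ k := h5
          _ ≤ 2 ^ h := hkh
      exact (Nat.pow_le_pow_iff_right (by norm_num)).1 h7
    refine ⟨h, s, hkh, ?_, Or.inr ⟨hs1, hsh, ?_⟩⟩
    · rw [div_le_iff₀ hlog]
      have h7 : (k : ℝ) ≤ 2 ^ (s + 1) * (2 ^ 38 * (h : ℝ)) := by
        have : (k : ℝ) ≤ ((2 ^ (s + 1) * A : ℕ) : ℝ) := by exact_mod_cast h6.le
        refine le_trans this (le_of_eq ?_)
        rw [hAdef, Nat.cast_mul, Nat.cast_pow, Nat.cast_mul, Nat.cast_pow, Nat.cast_ofNat]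
      have h8 : (0 : ℝ) < 2 ^ s := by positivity
      have h9 : (2 : ℝ) ^ s * (2 ^ 39 * (h : ℝ)) ≤ 2 ^ s * (2 ^ 39 * (3 * Real.log k)) := by
        gcongr
      push_cast
      rw [pow_succ] at h7
      have h10 : (k : ℝ) ≤ 2 ^ s * (2 ^ 39 * (3 * Real.log k)) := by
        refine le_trans h7 (le_trans (le_of_eq ?_) h9)
        ring
      have h11 : (0 : ℝ) ≤ 2 ^ s * Real.log k := by positivity
      calc (1 : ℝ) / 2 ^ 41 * k ≤ 1 / 2 ^ 41 * (2 ^ s * (2 ^ 39 * (3 * Real.log k))) :=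
            mul_le_mul_of_nonneg_left h10 (by positivity)
        _ = 3 / 4 * (2 ^ s * Real.log k) := by ring
        _ ≤ 2 ^ s * Real.log k := by linarith
    · calc 2 ^ 38 * h * 2 ^ s = 2 ^ s * A := by rw [hAdef]; ring
        _ ≤ k := h5

end Pool.Agent.Helper59.MT2
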